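import Pool.Agent.H11Glauber.Norm

/-!
Contraction of the hierarchical difference norm.
-/

namespace H11Glauber

open Finset

variable {V : Type} [Fintype V] [DecidableEq V]

open Classical in
/-- sup of the `S`-difference over admissible sets -/
noncomputable def M (G : SimpleGraph V) (S : Finset V) (F : Finset V → ℂ) : ℝ :=
  ((((Finset.univ : Finset (Finset V)).filter (fun I => Adm G S I)).sup
    (fun I => ‖D S F I‖₊) : NNReal) : ℝ)

lemma M_nonneg (G : SimpleGraph V) (S : Finset V) (F : Finset V → ℂ) : 0 ≤ M G S F :=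
  NNReal.coe_nonneg _

lemma le_M {G : SimpleGraph V} {S I : Finset V} (h : Adm G S I) (F : Finset V → ℂ) :
    ‖D S F I‖ ≤ M G S F := by
  classical
  unfold M
  have := Finset.le_sup (f := fun I => ‖D S F I‖₊)
    (Finset.mem_filter.2 ⟨Finset.mem_univ I, h⟩)
  exact_mod_cast this

lemma M_le {G : SimpleGraph V} {S : Finset V} {F : Finset V → ℂ} {b : ℝ} (hb : 0 ≤ b)
    (h : ∀ I, Adm G S I → ‖D S F I‖ ≤ b) : M G S F ≤ b := by
  classical
  unfold M
  have : (((Finset.univ : Finset (Finset V)).filter (fun I => Adm G S I)).sup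
    (fun I => ‖D S F I‖₊) : NNReal) ≤ Real.toNNReal b := by
    refine Finset.sup_le fun I hI => ?_
    have := h I (Finset.mem_filter.1 hI).2
    rw [← NNReal.coe_le_coe, Real.coe_toNNReal b hb, coe_nnnorm]
    exact this
  have h2 := NNReal.coe_le_coe.2 this
  rwa [Real.coe_toNNReal b hb] at h2

lemma adm_erase {G : SimpleGraph V} {S I : Finset V} (h : Adm G S I) (x : V) :
    Adm G S (I.erase x) := by
  refine ⟨Finset.disjoint_of_subset_left (Finset.erase_subset _ _) h.1, ?_⟩
  intro a ha b hb
  exact h.2 a (Finset.union_subset_union_left (Finset.erase_subset _ _) ha) b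
    (Finset.union_subset_union_left (Finset.erase_subset _ _) hb)

/-- the other admissibility facts: `x` unblocked by `I`, `x ∉ S`, and `B ⊆ S` without
neighbours of `x`. -/
lemma adm_insert {G : SimpleGraph V} {S B I : Finset V} (h : Adm G S I) {x : V} (hxS : x ∉ S)
    (hI : ∀ y ∈ I, ¬ G.Adj x y) (hB : B ⊆ S) (hBx : ∀ y ∈ B, ¬ G.Adj x y) :
    Adm G (insert x B) (I.erase x) := by
  refine ⟨?_, ?_⟩
  · rw [Finset.disjoint_left]
    intro y hy hy2
    rcases Finset.mem_insert.1 hy2 with rfl | hy3
    · simp at hy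
    · exact Finset.disjoint_left.1 h.1 (Finset.mem_of_mem_erase hy) (hB hy3)
  · have hx : ∀ y ∈ I.erase x ∪ insert x B, y = x ∨ (y ∈ I ∪ S ∧ ¬ G.Adj x y) := by
      intro y hy
      rcases Finset.mem_union.1 hy with h1 | h1
      · have := Finset.mem_of_mem_erase h1
        exact Or.inr ⟨Finset.mem_union_left _ this, hI y this⟩
      · rcases Finset.mem_insert.1 h1 with h2 | h2
        · exact Or.inl h2
        · exact Or.inr ⟨Finset.mem_union_right _ (hB h2), hBx y h2⟩
    intro a ha b hb hab
    rcases hx a ha with rfl | ⟨ha1, ha2⟩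
    · rcases hx b hb with rfl | ⟨hb1, hb2⟩
      · exact G.loopless.irrefl _ hab
      · exact hb2 hab
    · rcases hx b hb with rfl | ⟨hb1, hb2⟩
      · exact ha2 hab.symm
      · exact h.2 a ha1 b hb1 hab

lemma adm_insert' {G : SimpleGraph V} {S I : Finset V} (h : Adm G S I) {x : V} (hxS : x ∉ S)
    (hI : ∀ y ∈ I, ¬ G.Adj x y) (hS : ∀ y ∈ S, ¬ G.Adj x y) :
    Adm G S (insert x (I.erase x)) := by
  have h1 := adm_insert h hxS hI (le_refl S) hS
  refine ⟨?_, ?_⟩
  · rw [Finset.disjoint_left]
    intro y hy hy2
    rcases Finset.mem_insert.1 hy with rfl | hy3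
    · exact hxS hy2
    · exact Finset.disjoint_left.1 h.1 (Finset.mem_of_mem_erase hy3) hy2
  · have e : insert x (I.erase x) ∪ S = I.erase x ∪ insert x S := by
      ext y
      simp only [Finset.mem_erase, Finset.mem_union, Finset.mem_insert]
      tauto
    rw [e]
    exact h1.2

/-- One-site bound. `κ` is `‖η x‖` when `x` has no neighbour in `S`, and `‖p x‖` otherwise. -/
lemma M_U_le (G : SimpleGraph V) [DecidableRel G.Adj] (p : V → ℂ) (p0 : V → ℝ) {x : V}
    (h0 : 0 ≤ p0 x) (h1 : p0 x ≤ 1) {S : Finset V} (hx : x ∉ S) (F : Finset V → ℂ) :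
    M G S (U G p x F) ≤ M G S F +
      (if S.filter (fun y => G.Adj x y) = ∅ then ‖p x - p0 x‖ else ‖p x‖) *
        M G (insert x (S.filter (fun y => ¬ G.Adj x y))) F := by
  apply M_le
  · apply add_nonneg (M_nonneg _ _ _)
    apply mul_nonneg _ (M_nonneg _ _ _)
    split_ifs <;> exact norm_nonneg _
  intro I hI
  rw [D_U_notMem G p hx]
  have hM1 := le_M (adm_erase hI x) F
  by_cases hu : ∀ y ∈ I, ¬ G.Adj x y
  · rw [if_pos hu]
    have hM2 : ‖D (insert x (S.filter (fun y => ¬ G.Adj x y))) F (I.erase x)‖ ≤
        M G (insert x (S.filter (fun y => ¬ G.Adj x y))) F :=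
      le_M (adm_insert hI hx hu (Finset.filter_subset _ _)
        (fun y hy => (Finset.mem_filter.1 hy).2)) F
    by_cases hA : S.filter (fun y => G.Adj x y) = ∅
    · have hS : ∀ y ∈ S, ¬ G.Adj x y := by
        intro y hy hadj
        have : y ∈ S.filter (fun y => G.Adj x y) := Finset.mem_filter.2 ⟨hy, hadj⟩
        rw [hA] at this
        simp at this
      have hBS : S.filter (fun y => ¬ G.Adj x y) = S := Finset.filter_true_of_mem hS
      rw [if_pos hA]
      rw [hBS] at hM2 ⊢
      rw [hA, Finset.card_empty, pow_zero, mul_one]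
      have hM3 : ‖D S F (insert x (I.erase x))‖ ≤ M G S F := le_M (adm_insert' hI hx hu hS) F
      have e : D S F (I.erase x) + p x * D (insert x S) F (I.erase x) =
          ((1 - p0 x : ℝ) : ℂ) * D S F (I.erase x) + (p0 x : ℂ) * D S F (insert x (I.erase x)) +
            (p x - p0 x) * D (insert x S) F (I.erase x) := by
        rw [D_insert hx]
        push_cast
        ring
      rw [e]
      calc _ ≤ ‖((1 - p0 x : ℝ) : ℂ) * D S F (I.erase x) +
              (p0 x : ℂ) * D S F (insert x (I.erase x))‖ +
              ‖(p x - p0 x) * D (insert x S) F (I.erase x)‖ := norm_add_le _ _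
        _ ≤ (‖((1 - p0 x : ℝ) : ℂ) * D S F (I.erase x)‖ +
              ‖(p0 x : ℂ) * D S F (insert x (I.erase x))‖) +
              ‖(p x - p0 x) * D (insert x S) F (I.erase x)‖ := by
            gcongr
            exact norm_add_le _ _
        _ = ((1 - p0 x) * ‖D S F (I.erase x)‖ + p0 x * ‖D S F (insert x (I.erase x))‖) +
              ‖p x - p0 x‖ * ‖D (insert x S) F (I.erase x)‖ := by
            rw [norm_mul, norm_mul, norm_mul, Complex.norm_real, Complex.norm_real,
              Real.norm_of_nonneg h0, Real.norm_of_nonneg (by linarith : 0 ≤ 1 - p0 x)]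
        _ ≤ ((1 - p0 x) * M G S F + p0 x * M G S F) +
              ‖p x - p0 x‖ * M G (insert x S) F := by
            have : 0 ≤ 1 - p0 x := by linarith
            gcongr
        _ = _ := by ring
    · rw [if_neg hA]
      calc _ ≤ ‖D S F (I.erase x)‖ + ‖p x * (-1) ^ (S.filter (fun y => G.Adj x y)).card *
              D (insert x (S.filter (fun y => ¬ G.Adj x y))) F (I.erase x)‖ := norm_add_le _ _
        _ = ‖D S F (I.erase x)‖ + ‖p x‖ *
              ‖D (insert x (S.filter (fun y => ¬ G.Adj x y))) F (I.erase x)‖ := by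
            rw [norm_mul, norm_mul, norm_pow, norm_neg, norm_one, one_pow, mul_one]
        _ ≤ _ := by gcongr
  · rw [if_neg hu, add_zero]
    refine hM1.trans ?_
    have : 0 ≤ (if S.filter (fun y => G.Adj x y) = ∅ then ‖p x - p0 x‖ else ‖p x‖) *
        M G (insert x (S.filter (fun y => ¬ G.Adj x y))) F := by
      apply mul_nonneg _ (M_nonneg _ _ _)
      split_ifs <;> exact norm_nonneg _
    linarith

lemma M_U_mem (G : SimpleGraph V) [DecidableRel G.Adj] (p : V → ℂ) {x : V} {S : Finset V}
    (hx : x ∈ S) (F : Finset V → ℂ) : M G S (U G p x F) = 0 := by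
  apply le_antisymm _ (M_nonneg _ _ _)
  apply M_le le_rfl
  intro I _
  rw [D_U_mem G p hx, norm_zero]

/-- the hierarchical norm -/
noncomputable def N (G : SimpleGraph V) (c : ℝ) (F : Finset V → ℂ) : ℝ :=
  ∑ S ∈ (Finset.univ : Finset (Finset V)).erase ∅, c ^ S.card * M G S F

/-- splitting sets `S` avoiding `x` into the part adjacent to `x` and the rest -/
lemma sum_split (G : SimpleGraph V) [DecidableRel G.Adj] (x : V) (f : Finset V → Finset V → ℝ) :
    ∑ S ∈ ((Finset.univ : Finset V).erase x).powerset,
      f (S.filter (fun y => G.Adj x y)) (S.filter (fun y => ¬ G.Adj x y)) =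
    ∑ B ∈ (((Finset.univ : Finset V).erase x).filter (fun y => ¬ G.Adj x y)).powerset,
      ∑ A ∈ (G.neighborFinset x).powerset, f A B := by
  rw [← Finset.sum_product']
  refine Finset.sum_bij' (fun S _ => (S.filter (fun y => ¬ G.Adj x y), S.filter (fun y => G.Adj x y)))
    (fun P _ => P.1 ∪ P.2) ?_ ?_ ?_ ?_ ?_
  · intro S hS
    rw [Finset.mem_powerset] at hS
    rw [Finset.mem_product, Finset.mem_powerset, Finset.mem_powerset]
    refine ⟨Finset.filter_subset_filter _ hS, ?_⟩
    intro y hy
    rw [SimpleGraph.mem_neighborFinset]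
    exact (Finset.mem_filter.1 hy).2
  · rintro ⟨B, A⟩ hP
    rw [Finset.mem_product, Finset.mem_powerset, Finset.mem_powerset] at hP
    rw [Finset.mem_powerset]
    intro y hy
    rcases Finset.mem_union.1 hy with h | h
    · exact (Finset.mem_filter.1 (hP.1 h)).1
    · have := hP.2 h
      rw [SimpleGraph.mem_neighborFinset] at this
      exact Finset.mem_erase.2 ⟨this.ne', Finset.mem_univ _⟩
  · intro S hS
    ext y
    simp only [Finset.mem_union, Finset.mem_filter]
    tauto
  · rintro ⟨B, A⟩ hP
    rw [Finset.mem_product, Finset.mem_powerset, Finset.mem_powerset] at hP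
    have hB : ∀ y ∈ B, ¬ G.Adj x y := fun y hy => (Finset.mem_filter.1 (hP.1 hy)).2
    have hA : ∀ y ∈ A, G.Adj x y := fun y hy => by
      have := hP.2 hy
      rwa [SimpleGraph.mem_neighborFinset] at this
    ext y
    · simp only [Finset.mem_union, Finset.mem_filter]
      constructor
      · rintro ⟨h | h, h2⟩
        · exact h
        · exact absurd (hA y h) h2
      · intro h
        exact ⟨Or.inl h, hB y h⟩
    · simp only [Finset.mem_union, Finset.mem_filter]
      constructor
      · rintro ⟨h | h, h2⟩
        · exact absurd h2 (hB y h)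
        · exact h
      · intro h
        exact ⟨Or.inr h, hA y h⟩
  · intro S hS
    rfl

/-- the coupling term for one vertex -/
lemma site_term (G : SimpleGraph V) [DecidableRel G.Adj] (x : V) {c η q : ℝ} (hc : 0 < c)
    (hη : 0 ≤ η) (hq : 0 ≤ q) (F : Finset V → ℂ) :
    ∑ S ∈ ((Finset.univ : Finset V).erase x).powerset, c ^ S.card *
      ((if S.filter (fun y => G.Adj x y) = ∅ then η else q) *
        M G (insert x (S.filter (fun y => ¬ G.Adj x y))) F) ≤
    ((η + q * ((1 + c) ^ G.degree x - 1)) / c) *
      ∑ S ∈ ((Finset.univ : Finset (Finset V)).filter (fun S => x ∈ S)), c ^ S.card * M G S F := by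
  have h1 : ∀ S ∈ ((Finset.univ : Finset V).erase x).powerset, c ^ S.card *
      ((if S.filter (fun y => G.Adj x y) = ∅ then η else q) *
        M G (insert x (S.filter (fun y => ¬ G.Adj x y))) F) =
      (fun A B : Finset V => c ^ (A.card + B.card) * ((if A = ∅ then η else q) *
        M G (insert x B) F)) (S.filter (fun y => G.Adj x y))
          (S.filter (fun y => ¬ G.Adj x y)) := by
    intro S hS
    simp only
    rw [Finset.card_filter_add_card_filter_not]
  rw [Finset.sum_congr rfl h1, sum_split G x (fun A B : Finset V => c ^ (A.card + B.card) *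
    ((if A = ∅ then η else q) * M G (insert x B) F))]
  have h2 : ∀ B : Finset V, ∑ A ∈ (G.neighborFinset x).powerset, c ^ (A.card + B.card) *
      ((if A = ∅ then η else q) * M G (insert x B) F) =
      (η + q * ((1 + c) ^ G.degree x - 1)) * (c ^ B.card * M G (insert x B) F) := by
    intro B
    have h3 : ∑ A ∈ (G.neighborFinset x).powerset, c ^ A.card * (if A = ∅ then η else q) =
        η + q * ((1 + c) ^ G.degree x - 1) := by
      have h4 : ∑ A ∈ (G.neighborFinset x).powerset, c ^ A.card = (1 + c) ^ G.degree x := by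
        have := Finset.prod_one_add (f := fun _ : V => c) (s := G.neighborFinset x)
        rw [Finset.prod_const] at this
        rw [← SimpleGraph.card_neighborFinset_eq_degree, this]
        exact Finset.sum_congr rfl fun A _ => by rw [Finset.prod_const]
      have h5 : ∀ A ∈ (G.neighborFinset x).powerset, c ^ A.card * (if A = ∅ then η else q) =
          q * c ^ A.card + (if A = ∅ then (η - q) else 0) := by
        intro A _
        by_cases hA : A = ∅
        · rw [if_pos hA, if_pos hA, hA, Finset.card_empty]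
          ring
        · rw [if_neg hA, if_neg hA]
          ring
      rw [Finset.sum_congr rfl h5, Finset.sum_add_distrib, ← Finset.mul_sum, h4,
        Finset.sum_ite_eq' , if_pos (Finset.empty_mem_powerset _)]
      ring
    rw [← h3, Finset.sum_mul]
    refine Finset.sum_congr rfl fun A _ => ?_
    rw [pow_add]
    ring
  rw [Finset.sum_congr rfl fun B _ => h2 B, ← Finset.mul_sum]
  have hK : 0 ≤ η + q * ((1 + c) ^ G.degree x - 1) := by
    have : 1 ≤ (1 + c) ^ G.degree x := one_le_pow₀ (by linarith)
    have := mul_nonneg hq (by linarith : 0 ≤ (1 + c) ^ G.degree x - 1)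
    linarith
  have h6 : c * ∑ B ∈ (((Finset.univ : Finset V).erase x).filter
      (fun y => ¬ G.Adj x y)).powerset, c ^ B.card * M G (insert x B) F ≤
      ∑ S ∈ ((Finset.univ : Finset (Finset V)).filter (fun S => x ∈ S)), c ^ S.card * M G S F := by
    have hxB : ∀ B ∈ (((Finset.univ : Finset V).erase x).filter
        (fun y => ¬ G.Adj x y)).powerset, x ∉ B := by
      intro B hB hx
      rw [Finset.mem_powerset] at hB
      have := (Finset.mem_filter.1 (hB hx)).1
      simp at this
    rw [Finset.mul_sum]
    have h7 : ∀ B ∈ (((Finset.univ : Finset V).erase x).filter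
        (fun y => ¬ G.Adj x y)).powerset, c * (c ^ B.card * M G (insert x B) F) =
        (fun S : Finset V => c ^ S.card * M G S F) (insert x B) := by
      intro B hB
      simp only
      rw [Finset.card_insert_of_notMem (hxB B hB), pow_succ]
      ring
    rw [Finset.sum_congr rfl h7]
    rw [← Finset.sum_image (f := fun S : Finset V => c ^ S.card * M G S F) (g := insert x)]
    · apply Finset.sum_le_sum_of_subset_of_nonneg
      · intro S hS
        obtain ⟨B, hB, rfl⟩ := Finset.mem_image.1 hS
        exact Finset.mem_filter.2 ⟨Finset.mem_univ _, Finset.mem_insert_self _ _⟩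
      · intro S _ _
        exact mul_nonneg (pow_nonneg hc.le _) (M_nonneg _ _ _)
    · intro B hB B' hB' h
      have h8 : (insert x B).erase x = (insert x B').erase x := congrArg (fun S => S.erase x) h
      rwa [Finset.erase_insert (hxB B (Finset.mem_coe.1 hB)),
        Finset.erase_insert (hxB B' (Finset.mem_coe.1 hB'))] at h8
  have h9 : ∑ B ∈ (((Finset.univ : Finset V).erase x).filter
      (fun y => ¬ G.Adj x y)).powerset, c ^ B.card * M G (insert x B) F ≤
      (∑ S ∈ ((Finset.univ : Finset (Finset V)).filter (fun S => x ∈ S)),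
        c ^ S.card * M G S F) / c := by
    rw [le_div_iff₀ hc]
    linarith
  calc _ ≤ (η + q * ((1 + c) ^ G.degree x - 1)) *
      ((∑ S ∈ ((Finset.univ : Finset (Finset V)).filter (fun S => x ∈ S)),
        c ^ S.card * M G S F) / c) := by gcongr
    _ = _ := by ring

/-- The contraction estimate. -/
lemma N_sum_le (G : SimpleGraph V) [DecidableRel G.Adj] (p : V → ℂ) (p0 : V → ℝ)
    (h0 : ∀ x, 0 ≤ p0 x) (h1 : ∀ x, p0 x ≤ 1) {c θ : ℝ} (hc : 0 < c) (hθ : θ ≤ 1)
    (hp : ∀ x, (‖p x - p0 x‖ + ‖p x‖ * ((1 + c) ^ G.degree x - 1)) / c ≤ θ)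
    (F : Finset V → ℂ) :
    N G c (fun I => ∑ x : V, U G p x F I) ≤ ((Fintype.card V : ℝ) - (1 - θ)) * N G c F := by
  set κ : V → Finset V → ℝ := fun x S =>
    (if S.filter (fun y => G.Adj x y) = ∅ then ‖p x - p0 x‖ else ‖p x‖) *
        M G (insert x (S.filter (fun y => ¬ G.Adj x y))) F with hκ
  have hκ0 : ∀ x S, 0 ≤ κ x S := by
    intro x S
    apply mul_nonneg _ (M_nonneg _ _ _)
    split_ifs <;> exact norm_nonneg _
  -- pointwise bound
  have hS : ∀ S : Finset V, M G S (fun I => ∑ x : V, U G p x F I) ≤
      ∑ x ∈ (Finset.univ.filter (fun x => x ∉ S)), (M G S F + κ x S) := by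
    intro S
    have hb : ∀ x, M G S (U G p x F) ≤ if x ∉ S then M G S F + κ x S else 0 := by
      intro x
      by_cases hx : x ∈ S
      · rw [if_neg (not_not.2 hx), M_U_mem G p hx]
      · rw [if_pos hx]
        exact M_U_le G p p0 (h0 x) (h1 x) hx F
    rw [Finset.sum_filter]
    apply M_le
    · apply Finset.sum_nonneg
      intro x _
      by_cases hx : x ∈ S
      · rw [if_neg (not_not.2 hx)]
      · rw [if_pos hx]
        exact add_nonneg (M_nonneg _ _ _) (hκ0 x S)
    intro I hI
    rw [D_sum]
    refine (norm_sum_le _ _).trans (Finset.sum_le_sum fun x _ => ?_)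
    exact (le_M hI _).trans (hb x)
  -- sum over S
  have hA : N G c (fun I => ∑ x : V, U G p x F I) ≤
      ∑ S ∈ (Finset.univ : Finset (Finset V)).erase ∅, c ^ S.card *
        (∑ x ∈ (Finset.univ.filter (fun x => x ∉ S)), (M G S F + κ x S)) := by
    unfold N
    refine Finset.sum_le_sum fun S _ => ?_
    exact mul_le_mul_of_nonneg_left (hS S) (pow_nonneg hc.le _)
  have hB : ∑ S ∈ (Finset.univ : Finset (Finset V)).erase ∅, c ^ S.card *
        (∑ x ∈ (Finset.univ.filter (fun x => x ∉ S)), (M G S F + κ x S)) =
      ∑ S ∈ (Finset.univ : Finset (Finset V)).erase ∅,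
        ((Fintype.card V : ℝ) - S.card) * (c ^ S.card * M G S F) +
      ∑ S ∈ (Finset.univ : Finset (Finset V)).erase ∅,
        ∑ x ∈ (Finset.univ.filter (fun x => x ∉ S)), c ^ S.card * κ x S := by
    rw [← Finset.sum_add_distrib]
    refine Finset.sum_congr rfl fun S _ => ?_
    rw [Finset.sum_add_distrib, Finset.sum_const, mul_add, Finset.mul_sum]
    congr 1
    have : ((Finset.univ.filter (fun x => x ∉ S)).card : ℝ) = (Fintype.card V : ℝ) - S.card := by
      have e : Finset.univ.filter (fun x => x ∉ S) = Sᶜ := by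
        ext y
        simp
      rw [e, Finset.card_compl, Nat.cast_sub (Finset.card_le_univ S)]
    rw [nsmul_eq_mul, this]
    ring
  have hC : ∑ S ∈ (Finset.univ : Finset (Finset V)).erase ∅,
        ∑ x ∈ (Finset.univ.filter (fun x => x ∉ S)), c ^ S.card * κ x S ≤
      ∑ x : V, θ * ∑ S ∈ ((Finset.univ : Finset (Finset V)).filter (fun S => x ∈ S)),
        c ^ S.card * M G S F := by
    calc _ ≤ ∑ S : Finset V,
        ∑ x ∈ (Finset.univ.filter (fun x => x ∉ S)), c ^ S.card * κ x S := by
          apply Finset.sum_le_sum_of_subset_of_nonneg (Finset.erase_subset _ _)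
          intro S _ _
          exact Finset.sum_nonneg fun x _ => mul_nonneg (pow_nonneg hc.le _) (hκ0 x S)
      _ = ∑ x : V, ∑ S ∈ ((Finset.univ : Finset V).erase x).powerset, c ^ S.card * κ x S := by
          apply Finset.sum_comm'
          intro S x
          simp only [Finset.mem_univ, true_and, Finset.mem_filter, Finset.mem_powerset, and_true]
          constructor
          · intro h y hy
            exact Finset.mem_erase.2 ⟨fun e => h (e ▸ hy), Finset.mem_univ _⟩
          · intro h hx
            have := h hx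
            simp at this
      _ ≤ _ := by
          refine Finset.sum_le_sum fun x _ => ?_
          refine (site_term G x hc (norm_nonneg (p x - p0 x)) (norm_nonneg (p x)) F).trans ?_
          apply mul_le_mul_of_nonneg_right (hp x)
          exact Finset.sum_nonneg fun S _ => mul_nonneg (pow_nonneg hc.le _) (M_nonneg _ _ _)
  have hD : ∑ x : V, θ * ∑ S ∈ ((Finset.univ : Finset (Finset V)).filter (fun S => x ∈ S)),
        c ^ S.card * M G S F =
      ∑ S ∈ (Finset.univ : Finset (Finset V)).erase ∅,
        θ * S.card * (c ^ S.card * M G S F) := by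
    rw [← Finset.mul_sum]
    have e : ∑ x : V, ∑ S ∈ ((Finset.univ : Finset (Finset V)).filter (fun S => x ∈ S)),
        c ^ S.card * M G S F = ∑ S ∈ (Finset.univ : Finset (Finset V)).erase ∅,
          ∑ x ∈ S, c ^ S.card * M G S F := by
      apply Finset.sum_comm'
      intro x S
      simp only [Finset.mem_univ, true_and, Finset.mem_filter, Finset.mem_erase, and_true]
      constructor
      · intro h
        exact ⟨h, fun e => by simp [e] at h⟩
      · exact fun h => h.1
    rw [e, Finset.mul_sum]
    refine Finset.sum_congr rfl fun S _ => ?_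
    rw [Finset.sum_const, nsmul_eq_mul]
    ring
  calc N G c (fun I => ∑ x : V, U G p x F I) ≤
      ∑ S ∈ (Finset.univ : Finset (Finset V)).erase ∅,
        ((Fintype.card V : ℝ) - S.card) * (c ^ S.card * M G S F) +
      ∑ S ∈ (Finset.univ : Finset (Finset V)).erase ∅,
        θ * S.card * (c ^ S.card * M G S F) := by linarith [hA, hB, hC, hD]
    _ = ∑ S ∈ (Finset.univ : Finset (Finset V)).erase ∅,
        ((Fintype.card V : ℝ) - (1 - θ) * S.card) * (c ^ S.card * M G S F) := by
          rw [← Finset.sum_add_distrib]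
          exact Finset.sum_congr rfl fun S _ => by ring
    _ ≤ ∑ S ∈ (Finset.univ : Finset (Finset V)).erase ∅,
        ((Fintype.card V : ℝ) - (1 - θ)) * (c ^ S.card * M G S F) := by
          refine Finset.sum_le_sum fun S hS => ?_
          apply mul_le_mul_of_nonneg_right _ (mul_nonneg (pow_nonneg hc.le _) (M_nonneg _ _ _))
          have h2 : (1 : ℝ) ≤ S.card := by
            have : S.Nonempty := Finset.nonempty_iff_ne_empty.2 (Finset.mem_erase.1 hS).1
            exact_mod_cast this.card_pos
          have : (1 - θ) * 1 ≤ (1 - θ) * S.card :=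
            mul_le_mul_of_nonneg_left h2 (by linarith)
          linarith
    _ = _ := by rw [N, Finset.mul_sum]

end H11Glauber
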