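import Mathlib

/-!
Definitions for MP_eb4d96_pr: single-site heat-bath (Glauber) dynamics of the hard-core model at
complex fugacities, as a matrix indexed by the independent sets, and the map it induces on
functions modulo constants.
-/

namespace H11Glauber

/-- The independent sets of the graph `G`. -/
abbrev Omega {V : Type} [Fintype V] [DecidableEq V] (G : SimpleGraph V) : Type :=
  {I : Finset V // ∀ x ∈ I, ∀ y ∈ I, ¬ G.Adj x y}

/-- The transition matrix `P_{G,w}`.  From `I` a vertex `x` is picked uniformly; if no neighbour
of `x` lies in `I`, move to `I ∪ {x}` with weight `w x / (1 + w x)` and to `I \ {x}` with weight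
`1 / (1 + w x)`; otherwise move to `I \ {x}`. -/
noncomputable def glauber {V : Type} [Fintype V] [DecidableEq V] (G : SimpleGraph V)
    [DecidableRel G.Adj] (w : V → ℂ) : Matrix (Omega G) (Omega G) ℂ := fun I J =>
  (1 / (Fintype.card V : ℂ)) * ∑ x : V,
    if ∀ y ∈ I.1, ¬ G.Adj x y then
      (if J.1 = insert x I.1 then w x / (1 + w x) else 0) +
        (if J.1 = I.1.erase x then 1 / (1 + w x) else 0)
    else (if J.1 = I.1.erase x then 1 else 0)

/-- The constant functions, as a subspace of `ι → ℂ`. -/
def constants (ι : Type) : Submodule ℂ (ι → ℂ) := Submodule.span ℂ {fun _ => (1 : ℂ)}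

/-- The linear map induced by a matrix `A` with `A 1 = 1` on functions modulo constants. -/
noncomputable def inducedMap {ι : Type} [Fintype ι] (A : Matrix ι ι ℂ)
    (h : A.mulVec (fun _ => 1) = fun _ => 1) :
    Module.End ℂ ((ι → ℂ) ⧸ constants ι) :=
  Submodule.mapQ (constants ι) (constants ι) A.mulVecLin (by
    rw [constants, Submodule.span_le]
    rintro f hf
    rw [Set.mem_singleton_iff] at hf
    subst hf
    show A.mulVecLin (fun _ => 1) ∈ Submodule.span ℂ {fun _ => (1 : ℂ)}
    rw [Matrix.mulVecLin_apply, h]
    exact Submodule.subset_span rfl)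

/-- `A 1 = 1`, and the map induced by `A` on functions modulo constants has spectral radius
less than one. -/
def SprLtOne {ι : Type} [Fintype ι] (A : Matrix ι ι ℂ) : Prop :=
  ∃ h : A.mulVec (fun _ => 1) = fun _ => 1, spectralRadius ℂ (inducedMap A h) < 1

end H11Glauber
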