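import Mathlib

/-!
The hierarchical difference norm for the hard-core Glauber dynamics.
-/

namespace H11Glauber

open Finset

variable {V : Type} [Fintype V] [DecidableEq V]

/-- independence of a finset -/
def Ind (G : SimpleGraph V) (I : Finset V) : Prop := ∀ x ∈ I, ∀ y ∈ I, ¬ G.Adj x y

/-- update at `x` -/
def U (G : SimpleGraph V) [DecidableRel G.Adj] (p : V → ℂ) (x : V) (F : Finset V → ℂ)
    (I : Finset V) : ℂ :=
  if ∀ y ∈ I, ¬ G.Adj x y then p x * F (insert x I) + (1 - p x) * F (I.erase x)
  else F (I.erase x)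

/-- iterated difference -/
def D (S : Finset V) (F : Finset V → ℂ) (I : Finset V) : ℂ :=
  ∑ T ∈ S.powerset, (-1) ^ (S \ T).card * F (I ∪ T)

/-- admissible pairs -/
def Adm (G : SimpleGraph V) (S I : Finset V) : Prop := Disjoint I S ∧ Ind G (I ∪ S)

lemma D_insert {x : V} {S : Finset V} (hx : x ∉ S) (F : Finset V → ℂ) (I : Finset V) :
    D (insert x S) F I = D S F (insert x I) - D S F I := by
  unfold D
  rw [Finset.sum_powerset_insert hx]
  have h1 : ∀ T ∈ S.powerset, (-1 : ℂ) ^ ((insert x S) \ T).card * F (I ∪ T)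
      = - ((-1) ^ (S \ T).card * F (I ∪ T)) := by
    intro T hT
    rw [Finset.mem_powerset] at hT
    have hxT : x ∉ T := fun h => hx (hT h)
    rw [Finset.insert_sdiff_of_notMem _ hxT, Finset.card_insert_of_notMem, pow_succ]
    · ring
    · intro h
      exact hx (Finset.mem_sdiff.1 h).1
  have h2 : ∀ T ∈ S.powerset, (-1 : ℂ) ^ ((insert x S) \ (insert x T)).card * F (I ∪ insert x T)
      = (-1) ^ (S \ T).card * F (insert x I ∪ T) := by
    intro T hT
    rw [Finset.mem_powerset] at hT
    have e1 : (insert x S) \ (insert x T) = S \ T := by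
      ext y
      simp only [Finset.mem_sdiff, Finset.mem_insert, not_or]
      constructor
      · rintro ⟨h | h, h1, h2⟩
        · exact absurd h h1
        · exact ⟨h, h2⟩
      · rintro ⟨h, h2⟩
        exact ⟨Or.inr h, fun e => hx (e ▸ h), h2⟩
    have e2 : I ∪ insert x T = insert x I ∪ T := by
      ext y
      simp only [Finset.mem_union, Finset.mem_insert]
      tauto
    rw [e1, e2]
  rw [Finset.sum_congr rfl h1, Finset.sum_congr rfl h2, Finset.sum_neg_distrib]
  ring

lemma D_add (S : Finset V) (F G' : Finset V → ℂ) (I : Finset V) :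
    D S (fun J => F J + G' J) I = D S F I + D S G' I := by
  unfold D
  rw [← Finset.sum_add_distrib]
  exact Finset.sum_congr rfl fun T _ => by ring

lemma D_smul (S : Finset V) (k : ℂ) (F : Finset V → ℂ) (I : Finset V) :
    D S (fun J => k * F J) I = k * D S F I := by
  unfold D
  rw [Finset.mul_sum]
  exact Finset.sum_congr rfl fun T _ => by ring

lemma D_sum {ι : Type*} (s : Finset ι) (S : Finset V) (F : ι → Finset V → ℂ) (I : Finset V) :
    D S (fun J => ∑ x ∈ s, F x J) I = ∑ x ∈ s, D S (F x) I := by
  unfold D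
  rw [Finset.sum_comm]
  exact Finset.sum_congr rfl fun T _ => by rw [Finset.mul_sum]

lemma D_const {S : Finset V} (hS : S.Nonempty) (a : ℂ) (I : Finset V) :
    D S (fun _ => a) I = 0 := by
  obtain ⟨x, hx⟩ := hS
  rw [← Finset.insert_erase hx, D_insert (Finset.notMem_erase x S)]
  simp [D]

lemma D_congr {G : SimpleGraph V} {S I : Finset V} (h : Adm G S I) {F F' : Finset V → ℂ}
    (hF : ∀ J, Ind G J → F J = F' J) : D S F I = D S F' I := by
  unfold D
  refine Finset.sum_congr rfl fun T hT => ?_
  rw [Finset.mem_powerset] at hT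
  rw [hF]
  intro x hx y hy
  exact h.2 x (Finset.union_subset_union_right hT hx) y (Finset.union_subset_union_right hT hy)

/-- update is insensitive to the state of `x` -/
lemma U_insert (G : SimpleGraph V) [DecidableRel G.Adj] (p : V → ℂ) (x : V) (F : Finset V → ℂ)
    (I : Finset V) : U G p x F (insert x I) = U G p x F I := by
  unfold U
  have h1 : (∀ y ∈ insert x I, ¬ G.Adj x y) ↔ (∀ y ∈ I, ¬ G.Adj x y) := by
    constructor
    · intro h y hy
      exact h y (Finset.mem_insert_of_mem hy)
    · intro h y hy
      rcases Finset.mem_insert.1 hy with rfl | hy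
      · exact G.loopless.irrefl _
      · exact h y hy
  have h2 : insert x (insert x I) = insert x I := by simp
  have h3 : (insert x I).erase x = I.erase x := by
    ext y
    simp only [Finset.mem_erase, Finset.mem_insert]
    tauto
  simp only [h1, h2, h3]

lemma D_U_mem (G : SimpleGraph V) [DecidableRel G.Adj] (p : V → ℂ) {x : V} {S : Finset V}
    (hx : x ∈ S) (F : Finset V → ℂ) (I : Finset V) : D S (U G p x F) I = 0 := by
  rw [← Finset.insert_erase hx, D_insert (Finset.notMem_erase x S)]
  rw [sub_eq_zero]
  unfold D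
  refine Finset.sum_congr rfl fun T _ => ?_
  rw [Finset.insert_union, U_insert]

/-- The basic identity. -/
lemma D_U_notMem (G : SimpleGraph V) [DecidableRel G.Adj] (p : V → ℂ) {x : V} {S : Finset V}
    (hx : x ∉ S) (F : Finset V → ℂ) (I : Finset V) :
    D S (U G p x F) I = D S F (I.erase x) +
      (if ∀ y ∈ I, ¬ G.Adj x y then
        p x * (-1) ^ (S.filter (fun y => G.Adj x y)).card *
          D (insert x (S.filter (fun y => ¬ G.Adj x y))) F (I.erase x) else 0) := by
  have key : ∀ T ∈ S.powerset, U G p x F (I ∪ T) = F (I.erase x ∪ T) +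
      (if ∀ y ∈ I, ¬ G.Adj x y then
        (if ∀ y ∈ T, ¬ G.Adj x y then p x * (F (insert x (I.erase x) ∪ T) - F (I.erase x ∪ T))
          else 0) else 0) := by
    intro T hT
    rw [Finset.mem_powerset] at hT
    have hxT : x ∉ T := fun h => hx (hT h)
    have e1 : (I ∪ T).erase x = I.erase x ∪ T := by
      ext y
      simp only [Finset.mem_erase, Finset.mem_union]
      constructor
      · rintro ⟨h1, h2 | h2⟩
        · exact Or.inl ⟨h1, h2⟩
        · exact Or.inr h2
      · rintro (⟨h1, h2⟩ | h2)
        · exact ⟨h1, Or.inl h2⟩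
        · exact ⟨fun e => hxT (e ▸ h2), Or.inr h2⟩
    have e2 : insert x (I ∪ T) = insert x (I.erase x) ∪ T := by
      ext y
      simp only [Finset.mem_erase, Finset.mem_union, Finset.mem_insert]
      by_cases h : y = x <;> simp [h]
    unfold U
    rw [e1, e2]
    by_cases hI : ∀ y ∈ I, ¬ G.Adj x y
    · by_cases hTT : ∀ y ∈ T, ¬ G.Adj x y
      · have : ∀ y ∈ I ∪ T, ¬ G.Adj x y := by
          intro y hy
          rcases Finset.mem_union.1 hy with h | h
          · exact hI y h
          · exact hTT y h
        rw [if_pos this, if_pos hI, if_pos hTT]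
        ring
      · have : ¬ ∀ y ∈ I ∪ T, ¬ G.Adj x y := fun h =>
          hTT fun y hy => h y (Finset.mem_union_right _ hy)
        rw [if_neg this, if_pos hI, if_neg hTT, add_zero]
    · have : ¬ ∀ y ∈ I ∪ T, ¬ G.Adj x y := fun h =>
        hI fun y hy => h y (Finset.mem_union_left _ hy)
      rw [if_neg this, if_neg hI, add_zero]
  have step1 : D S (U G p x F) I = D S F (I.erase x) +
      (if ∀ y ∈ I, ¬ G.Adj x y then ∑ T ∈ S.powerset, (-1) ^ (S \ T).card *
        (if ∀ y ∈ T, ¬ G.Adj x y then p x * (F (insert x (I.erase x) ∪ T) - F (I.erase x ∪ T))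
          else 0) else 0) := by
    unfold D
    rw [Finset.sum_congr rfl fun T hT => by rw [key T hT, mul_add], Finset.sum_add_distrib]
    congr 1
    split_ifs with h
    · rfl
    · simp
  rw [step1]
  congr 1
  split_ifs with h
  · have hx' : x ∉ S.filter (fun y => ¬ G.Adj x y) := fun h => hx (Finset.mem_filter.1 h).1
    rw [D_insert hx']
    unfold D
    rw [← Finset.sum_sub_distrib, Finset.mul_sum]
    have hsub : (S.filter (fun y => ¬ G.Adj x y)).powerset ⊆ S.powerset :=
      Finset.powerset_mono.2 (Finset.filter_subset _ _)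
    rw [← Finset.sum_subset hsub]
    · refine Finset.sum_congr rfl fun T hT => ?_
      rw [Finset.mem_powerset] at hT
      have hT2 : ∀ y ∈ T, ¬ G.Adj x y := fun y hy => (Finset.mem_filter.1 (hT hy)).2
      rw [if_pos hT2]
      have hc : (S \ T).card = (S.filter (fun y => G.Adj x y)).card +
          ((S.filter (fun y => ¬ G.Adj x y)) \ T).card := by
        rw [← Finset.card_union_of_disjoint]
        · congr 1
          ext y
          simp only [Finset.mem_sdiff, Finset.mem_union, Finset.mem_filter]
          constructor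
          · rintro ⟨h1, h2⟩
            by_cases ha : G.Adj x y
            · exact Or.inl ⟨h1, ha⟩
            · exact Or.inr ⟨⟨h1, ha⟩, h2⟩
          · rintro (⟨h1, h2⟩ | ⟨⟨h1, h2⟩, h3⟩)
            · exact ⟨h1, fun h => hT2 y h h2⟩
            · exact ⟨h1, h3⟩
        · rw [Finset.disjoint_left]
          intro y hy hy2
          exact (Finset.mem_filter.1 (Finset.mem_sdiff.1 hy2).1).2 (Finset.mem_filter.1 hy).2
      rw [hc, pow_add]
      ring
    · intro T hT hT2
      have : ¬ ∀ y ∈ T, ¬ G.Adj x y := by
        intro h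
        apply hT2
        rw [Finset.mem_powerset] at hT ⊢
        intro y hy
        exact Finset.mem_filter.2 ⟨hT hy, h y hy⟩
      rw [if_neg this, mul_zero]
  · rfl

end H11Glauber
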