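import Pool.Agent.H11Glauber.Spec

/-!
The regions.
-/

namespace H11Glauber

open Finset

/-- The good values of `p = w / (1 + w)` for the parameter `c`. -/
def E (Δ : ℕ) (c : ℝ) : Set ℂ :=
  {p | ∃ p0 : ℝ, 0 ≤ p0 ∧ p0 ≤ 1 ∧ ‖p - p0‖ + ‖p‖ * ((1 + c) ^ Δ - 1) < c}

/-- The good fugacities for a set of values of `p`. -/
def W (A : Set ℂ) : Set ℂ := {w | 1 + w ≠ 0 ∧ w / (1 + w) ∈ A}

lemma E_open (Δ : ℕ) (c : ℝ) : IsOpen (E Δ c) := by
  have : E Δ c = ⋃ p0 : ℝ, ⋃ (_ : 0 ≤ p0 ∧ p0 ≤ 1),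
      {p : ℂ | ‖p - p0‖ + ‖p‖ * ((1 + c) ^ Δ - 1) < c} := by
    ext p
    simp only [E, Set.mem_iUnion, Set.mem_ofPred_eq, exists_prop]
    constructor
    · rintro ⟨p0, h0, h1, h2⟩
      exact ⟨p0, ⟨h0, h1⟩, h2⟩
    · rintro ⟨p0, ⟨h0, h1⟩, h2⟩
      exact ⟨p0, h0, h1, h2⟩
  rw [this]
  refine isOpen_iUnion fun p0 => isOpen_iUnion fun _ => ?_
  apply isOpen_lt _ continuous_const
  fun_prop

lemma E_star (Δ : ℕ) {c : ℝ} (hc : 0 < c) : StarConvex ℝ 0 (E Δ c) := by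
  rintro p ⟨p0, h0, h1, h2⟩ a b ha hb hab
  refine ⟨b * p0, mul_nonneg hb h0, mul_le_one₀ (by linarith) h0 h1, ?_⟩
  have e1 : a • (0 : ℂ) + b • p = (b : ℂ) * p := by
    rw [smul_zero, zero_add, Complex.real_smul]
  have e2 : (b : ℂ) * p - ((b * p0 : ℝ) : ℂ) = (b : ℂ) * (p - p0) := by
    push_cast
    ring
  rw [e1, e2, norm_mul, norm_mul, Complex.norm_real, Real.norm_of_nonneg hb]
  have h3 : 0 ≤ ‖p - p0‖ + ‖p‖ * ((1 + c) ^ Δ - 1) := by
    have h3 : (1 : ℝ) ≤ (1 + c) ^ Δ := one_le_pow₀ (by linarith)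
    have h4 : 0 ≤ ‖p‖ * ((1 + c) ^ Δ - 1) := mul_nonneg (norm_nonneg _) (by linarith)
    have h5 := norm_nonneg (p - p0)
    linarith
  calc b * ‖p - p0‖ + b * ‖p‖ * ((1 + c) ^ Δ - 1) = b * (‖p - p0‖ + ‖p‖ * ((1 + c) ^ Δ - 1)) := by
        ring
    _ ≤ 1 * (‖p - p0‖ + ‖p‖ * ((1 + c) ^ Δ - 1)) :=
        mul_le_mul_of_nonneg_right (by linarith) h3
    _ < c := by rw [one_mul]; exact h2

lemma E_zero (Δ : ℕ) {c : ℝ} (hc : 0 < c) : (0 : ℂ) ∈ E Δ c :=
  ⟨0, le_rfl, zero_le_one, by simpa using hc⟩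

lemma E_ne_one {Δ : ℕ} (hΔ : 1 ≤ Δ) {c : ℝ} (hc : 0 < c) {p : ℂ} (hp : p ∈ E Δ c) : p ≠ 1 := by
  rintro rfl
  obtain ⟨p0, -, -, h⟩ := hp
  rw [norm_one, one_mul] at h
  have h1 : 1 + c ≤ (1 + c) ^ Δ := le_self_pow₀ (by linarith) (by omega)
  have h2 := norm_nonneg ((1 : ℂ) - p0)
  linarith

/-- `W` of an open star-shaped set (about `0`, not containing `1`) is open and connected. -/
lemma W_open {A : Set ℂ} (hA : IsOpen A) : IsOpen (W A) := by
  have h1 : IsOpen {w : ℂ | 1 + w ≠ 0} := isOpen_ne_fun (by fun_prop) continuous_const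
  have h2 : ContinuousOn (fun w : ℂ => w / (1 + w)) {w : ℂ | 1 + w ≠ 0} :=
    ContinuousOn.div continuousOn_id (by fun_prop) fun w hw => hw
  exact h2.isOpen_inter_preimage h1 hA

lemma W_connected {A : Set ℂ} (hA : StarConvex ℝ 0 A) (h0 : (0 : ℂ) ∈ A) (h1 : (1 : ℂ) ∉ A) :
    IsConnected (W A) := by
  have hc : IsConnected A := (hA.isPathConnected h0).isConnected
  have himg : W A = (fun p : ℂ => p / (1 - p)) '' A := by
    ext w
    constructor
    · rintro ⟨hw, hwA⟩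
      refine ⟨_, hwA, ?_⟩
      simp only
      have : 1 - w / (1 + w) = 1 / (1 + w) := by
        field_simp
        ring
      rw [this]
      field_simp
    · rintro ⟨p, hp, rfl⟩
      have hp1 : 1 - p ≠ 0 := by
        intro h
        apply h1
        rwa [sub_eq_zero.1 h]
      have e : 1 + p / (1 - p) = 1 / (1 - p) := by
        field_simp
        ring
      refine ⟨?_, ?_⟩
      · simp only
        rw [e]
        exact one_div_ne_zero hp1
      · simp only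
        rw [e]
        have : p / (1 - p) / (1 / (1 - p)) = p := by
          field_simp
        rw [this]
        exact hp
  rw [himg]
  apply hc.image
  apply ContinuousOn.div continuousOn_id (by fun_prop)
  intro p hp h
  exact h1 (by rwa [sub_eq_zero.1 h])

lemma pow_bound {Δ : ℕ} {c : ℝ} (hc : 0 < c) (hΔc : Δ * c < 1) :
    (1 + c) ^ Δ * (1 - Δ * c) ≤ 1 := by
  rcases Nat.eq_zero_or_pos Δ with rfl | hpos
  · simp
  have hc1 : c < 1 := by
    have : (1 : ℝ) ≤ Δ := by exact_mod_cast hpos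
    nlinarith
  have h1 : 1 + (Δ : ℝ) * (-c) ≤ (1 + (-c)) ^ Δ := one_add_mul_le_pow (by linarith) Δ
  calc (1 + c) ^ Δ * (1 - Δ * c) ≤ (1 + c) ^ Δ * (1 + (-c)) ^ Δ := by
        apply mul_le_mul_of_nonneg_left _ (by positivity)
        linarith
    _ = ((1 + c) * (1 + (-c))) ^ Δ := by rw [mul_pow]
    _ ≤ 1 := by
        apply pow_le_one₀
        · nlinarith
        · nlinarith

/-- a suitable `c` for the real points of `[0, q]`, `q < 1 / Δ`. -/
lemma exists_c {Δ : ℕ} (hΔ : 1 ≤ Δ) {q : ℝ} (hq0 : 0 ≤ q) (hq : q * Δ < 1) :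
    ∃ c : ℝ, 0 < c ∧ ∀ p : ℝ, 0 ≤ p → p ≤ q → (p : ℂ) ∈ E Δ c := by
  have hΔ' : (1 : ℝ) ≤ Δ := by exact_mod_cast hΔ
  refine ⟨(1 - q * Δ) / (2 * Δ), div_pos (by linarith) (by linarith), ?_⟩
  set c : ℝ := (1 - q * Δ) / (2 * Δ) with hc
  have hcpos : 0 < c := div_pos (by linarith) (by linarith)
  have hcΔ : Δ * c = (1 - q * Δ) / 2 := by
    rw [hc]
    field_simp
  intro p hp0 hpq
  refine ⟨p, hp0, ?_, ?_⟩
  · have : q * 1 ≤ q * Δ := mul_le_mul_of_nonneg_left hΔ' hq0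
    linarith
  · rw [sub_self, norm_zero, zero_add, Complex.norm_real, Real.norm_of_nonneg hp0]
    have h1 : Δ * c < 1 := by
      rw [hcΔ]
      have := mul_nonneg hq0 (by linarith : (0 : ℝ) ≤ Δ)
      linarith
    have h2 := pow_bound hcpos h1
    have h3 : (0 : ℝ) < 1 - Δ * c := by linarith
    have h4 : (1 : ℝ) ≤ (1 + c) ^ Δ := one_le_pow₀ (by linarith)
    have h5 : p * ((1 + c) ^ Δ - 1) ≤ q * ((1 + c) ^ Δ - 1) :=
      mul_le_mul_of_nonneg_right hpq (by linarith)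
    -- q ((1+c)^Δ - 1) (1 - Δ c) ≤ q Δ c < c (1 - Δ c)
    have h6 : q * ((1 + c) ^ Δ - 1) * (1 - Δ * c) ≤ q * (Δ * c) := by
      have : ((1 + c) ^ Δ - 1) * (1 - Δ * c) ≤ Δ * c := by nlinarith
      calc _ = q * (((1 + c) ^ Δ - 1) * (1 - Δ * c)) := by ring
        _ ≤ _ := mul_le_mul_of_nonneg_left this hq0
    have h7 : q * (Δ * c) < c * (1 - Δ * c) := by
      rw [hcΔ]
      have : q * ((1 - q * Δ) / 2) = (q * Δ) * ((1 - q * Δ) / 2) / Δ := by
        field_simp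
      have e : c * (1 - (1 - q * Δ) / 2) = ((1 + q * Δ) / 2) * ((1 - q * Δ) / 2) / Δ := by
        rw [hc]
        field_simp
        ring
      rw [this, e]
      apply div_lt_div_of_pos_right _ (by linarith)
      apply mul_lt_mul_of_pos_right _ (by linarith)
      linarith
    have h8 : q * ((1 + c) ^ Δ - 1) * (1 - Δ * c) < c * (1 - Δ * c) := lt_of_le_of_lt h6 h7
    have h9 := lt_of_mul_lt_mul_right h8 h3.le
    linarith

/-- Fugacities in `W (E Δ c)`, possibly different at different vertices. -/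
theorem spr_of_mem {Δ : ℕ} {c : ℝ} (hc : 0 < c) {V : Type} [Fintype V] [DecidableEq V]
    [Nonempty V] (G : SimpleGraph V) [DecidableRel G.Adj] (hG : ∀ x, G.degree x ≤ Δ) (w : V → ℂ)
    (hw : ∀ x, w x ∈ W (E Δ c)) : SprLtOne (glauber G w) := by
  apply spr_of_bound G w (fun x => (hw x).1) hc
  intro x
  obtain ⟨p0, h0, h1, h2⟩ := (hw x).2
  refine ⟨p0, h0, h1, lt_of_le_of_lt ?_ h2⟩
  gcongr
  · linarith
  · exact hG x

/-- The domain containing `[0, 1/(Δ-1))`. -/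
theorem main {Δ : ℕ} (hΔ : 2 ≤ Δ) :
    (∃ D : Set ℂ, IsOpen D ∧ IsConnected D ∧
      (∀ t : ℝ, 0 ≤ t → t < 1 / ((Δ : ℝ) - 1) → (t : ℂ) ∈ D) ∧
      ∀ (V : Type) [Fintype V] [DecidableEq V] [Nonempty V] (G : SimpleGraph V)
        [DecidableRel G.Adj], (∀ x, G.degree x ≤ Δ) →
        ∀ w ∈ D, w ≠ -1 ∧ SprLtOne (glauber G fun _ => w)) ∧
    (∀ a : ℝ, a < 1 / ((Δ : ℝ) - 1) → ∃ D : Set ℂ, IsOpen D ∧ IsConnected D ∧
      (∀ t : ℝ, 0 ≤ t → t ≤ a → (t : ℂ) ∈ D) ∧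
      ∀ (V : Type) [Fintype V] [DecidableEq V] [Nonempty V] (G : SimpleGraph V)
        [DecidableRel G.Adj], (∀ x, G.degree x ≤ Δ) →
        ∀ w : V → ℂ, (∀ x, w x ∈ D) → (∀ x, w x ≠ -1) ∧ SprLtOne (glauber G w)) := by
  have hΔ1 : 1 ≤ Δ := by omega
  have hΔr : (2 : ℝ) ≤ Δ := by exact_mod_cast hΔ
  have hne : ∀ {w : ℂ}, 1 + w ≠ 0 → w ≠ -1 := by
    rintro w hw rfl
    exact hw (by ring)
  -- real points
  have hreal : ∀ t : ℝ, 0 ≤ t → t < 1 / ((Δ : ℝ) - 1) → t / (1 + t) * Δ < 1 := by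
    intro t ht0 ht
    rw [lt_div_iff₀ (by linarith)] at ht
    rw [div_mul_eq_mul_div, div_lt_one (by linarith)]
    linarith
  have hmemW : ∀ (A : Set ℂ) (t : ℝ), 0 ≤ t → ((t / (1 + t) : ℝ) : ℂ) ∈ A → (t : ℂ) ∈ W A := by
    intro A t ht h
    refine ⟨?_, ?_⟩
    · have : (1 : ℝ) + t ≠ 0 := by linarith
      exact_mod_cast this
    · have e : (t : ℂ) / (1 + t) = ((t / (1 + t) : ℝ) : ℂ) := by push_cast; ring
      rw [e]
      exact h
  constructor
  · refine ⟨W (⋃ c : ℝ, ⋃ (_ : 0 < c), E Δ c), ?_, ?_, ?_, ?_⟩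
    · apply W_open
      exact isOpen_iUnion fun c => isOpen_iUnion fun _ => E_open Δ c
    · apply W_connected
      · apply starConvex_iUnion
        intro c
        apply starConvex_iUnion
        intro hc
        exact E_star Δ hc
      · simp only [Set.mem_iUnion, exists_prop]
        exact ⟨1, one_pos, E_zero Δ one_pos⟩
      · simp only [Set.mem_iUnion, exists_prop, not_exists, not_and]
        intro c hc h
        exact E_ne_one hΔ1 hc h rfl
    · intro t ht0 ht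
      apply hmemW _ t ht0
      have h0 : 0 ≤ t / (1 + t) := div_nonneg ht0 (by linarith)
      obtain ⟨c, hc, h⟩ := exists_c hΔ1 h0 (hreal t ht0 ht)
      simp only [Set.mem_iUnion, exists_prop]
      exact ⟨c, hc, h _ h0 le_rfl⟩
    · intro V _ _ _ G _ hG w hw
      refine ⟨hne hw.1, ?_⟩
      obtain ⟨hw1, hw2⟩ := hw
      simp only [Set.mem_iUnion, exists_prop] at hw2
      obtain ⟨c, hc, hw3⟩ := hw2
      exact spr_of_mem hc G hG (fun _ => w) fun _ => ⟨hw1, hw3⟩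
  · intro a ha
    set b : ℝ := max a 0 with hb
    have hb0 : 0 ≤ b := le_max_right _ _
    have hb1 : b < 1 / ((Δ : ℝ) - 1) := max_lt ha (by
      apply one_div_pos.2
      linarith)
    have h0 : 0 ≤ b / (1 + b) := div_nonneg hb0 (by linarith)
    obtain ⟨c, hc, h⟩ := exists_c hΔ1 h0 (hreal b hb0 hb1)
    refine ⟨W (E Δ c), W_open (E_open Δ c), W_connected (E_star Δ hc) (E_zero Δ hc)
      (fun h => E_ne_one hΔ1 hc h rfl), ?_, ?_⟩
    · intro t ht0 hta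
      apply hmemW _ t ht0
      apply h _ (div_nonneg ht0 (by linarith))
      have htb : t ≤ b := hta.trans (le_max_left _ _)
      rw [div_le_div_iff₀ (by linarith) (by linarith)]
      nlinarith
    · intro V _ _ _ G _ hG w hw
      exact ⟨fun x => hne (hw x).1, spr_of_mem hc G hG w hw⟩

end H11Glauber
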