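import Pool.Agent.H11Glauber.Defs
import Pool.Agent.H11Glauber.Contract

/-!
From the contraction estimate to the spectral radius.
-/

namespace H11Glauber

open Finset

variable {V : Type} [Fintype V] [DecidableEq V]

open Classical in
/-- extension by zero -/
noncomputable def ext0 (G : SimpleGraph V) (f : Omega G → ℂ) (I : Finset V) : ℂ :=
  if h : ∀ x ∈ I, ∀ y ∈ I, ¬ G.Adj x y then f ⟨I, h⟩ else 0

lemma ext0_coe (G : SimpleGraph V) (f : Omega G → ℂ) (I : Omega G) : ext0 G f I.1 = f I := by
  unfold ext0
  rw [dif_pos I.2]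

lemma sum_ite_ext0 (G : SimpleGraph V) [DecidableRel G.Adj] (f : Omega G → ℂ) (K : Finset V)
    (a : ℂ) :
    ∑ J : Omega G, (if J.1 = K then a else 0) * f J = a * ext0 G f K := by
  by_cases hK : ∀ x ∈ K, ∀ y ∈ K, ¬ G.Adj x y
  · rw [Finset.sum_eq_single (⟨K, hK⟩ : Omega G)]
    · rw [if_pos rfl, ← ext0_coe G f ⟨K, hK⟩]
    · intro J _ hJ
      rw [if_neg, zero_mul]
      intro h
      exact hJ (Subtype.ext h)
    · intro h
      exact absurd (Finset.mem_univ _) h
  · have : ext0 G f K = 0 := by
      unfold ext0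
      rw [dif_neg hK]
    rw [this, mul_zero]
    apply Finset.sum_eq_zero
    intro J _
    rw [if_neg, zero_mul]
    intro h
    exact hK (h ▸ J.2)

lemma glauber_mulVec (G : SimpleGraph V) [DecidableRel G.Adj] (w : V → ℂ)
    (hw : ∀ x, 1 + w x ≠ 0) (f : Omega G → ℂ) (I : Omega G) :
    (glauber G w).mulVec f I = (1 / (Fintype.card V : ℂ)) *
      ∑ x : V, U G (fun x => w x / (1 + w x)) x (ext0 G f) I.1 := by
  unfold Matrix.mulVec dotProduct glauber
  simp only
  have h1 : ∀ J : Omega G, (1 / (Fintype.card V : ℂ)) * (∑ x : V,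
      if ∀ y ∈ I.1, ¬ G.Adj x y then
        (if J.1 = insert x I.1 then w x / (1 + w x) else 0) +
          (if J.1 = I.1.erase x then 1 / (1 + w x) else 0)
      else (if J.1 = I.1.erase x then 1 else 0)) * f J =
      (1 / (Fintype.card V : ℂ)) * (∑ x : V,
      (if ∀ y ∈ I.1, ¬ G.Adj x y then
        (if J.1 = insert x I.1 then w x / (1 + w x) else 0) +
          (if J.1 = I.1.erase x then 1 / (1 + w x) else 0)
      else (if J.1 = I.1.erase x then 1 else 0)) * f J) := by
    intro J
    rw [mul_assoc, Finset.sum_mul]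
  rw [Finset.sum_congr rfl fun J _ => h1 J, ← Finset.mul_sum, Finset.sum_comm]
  congr 1
  refine Finset.sum_congr rfl fun x _ => ?_
  unfold U
  by_cases hu : ∀ y ∈ I.1, ¬ G.Adj x y
  · simp only [if_pos hu]
    have e : (1 : ℂ) - w x / (1 + w x) = 1 / (1 + w x) := by
      field_simp [hw x]
      ring
    rw [e, ← sum_ite_ext0, ← sum_ite_ext0, ← Finset.sum_add_distrib]
    exact Finset.sum_congr rfl fun J _ => by ring
  · simp only [if_neg hu]
    rw [sum_ite_ext0, one_mul]

lemma glauber_one (G : SimpleGraph V) [DecidableRel G.Adj] [Nonempty V] (w : V → ℂ)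
    (hw : ∀ x, 1 + w x ≠ 0) :
    (glauber G w).mulVec (fun _ => 1) = fun _ => 1 := by
  funext I
  rw [glauber_mulVec G w hw]
  have h1 : ∀ J : Finset V, (∀ x ∈ J, ∀ y ∈ J, ¬ G.Adj x y) →
      ext0 G (fun _ => (1 : ℂ)) J = 1 := by
    intro J hJ
    unfold ext0
    rw [dif_pos hJ]
  have h2 : ∀ x : V, U G (fun x => w x / (1 + w x)) x (ext0 G (fun _ => 1)) I.1 = 1 := by
    intro x
    have he : ∀ a ∈ I.1.erase x, ∀ b ∈ I.1.erase x, ¬ G.Adj a b := fun a ha b hb =>
      I.2 a (Finset.mem_of_mem_erase ha) b (Finset.mem_of_mem_erase hb)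
    unfold U
    split_ifs with hu
    · have hi : ∀ a ∈ insert x I.1, ∀ b ∈ insert x I.1, ¬ G.Adj a b := by
        intro a ha b hb hab
        rcases Finset.mem_insert.1 ha with ha1 | ha1
        · rcases Finset.mem_insert.1 hb with hb1 | hb1
          · rw [ha1, hb1] at hab
            exact G.loopless.irrefl _ hab
          · rw [ha1] at hab
            exact hu b hb1 hab
        · rcases Finset.mem_insert.1 hb with hb1 | hb1
          · rw [hb1] at hab
            exact hu a ha1 hab.symm
          · exact I.2 a ha1 b hb1 hab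
      rw [h1 _ he, h1 _ hi]
      ring
    · exact h1 _ he
  rw [Finset.sum_congr rfl fun x _ => h2 x]
  have : (Fintype.card V : ℂ) ≠ 0 := by
    exact_mod_cast Fintype.card_ne_zero
  simp [this]

/-- The spectral bound. -/
theorem spr_of_bound (G : SimpleGraph V) [DecidableRel G.Adj] [Nonempty V] (w : V → ℂ)
    (hw : ∀ x, 1 + w x ≠ 0) {c : ℝ} (hc : 0 < c)
    (hp : ∀ x, ∃ p0 : ℝ, 0 ≤ p0 ∧ p0 ≤ 1 ∧
      ‖w x / (1 + w x) - p0‖ + ‖w x / (1 + w x)‖ * ((1 + c) ^ G.degree x - 1) < c) :
    SprLtOne (glauber G w) := by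
  choose p0 h0 h1 hp using hp
  refine ⟨glauber_one G w hw, ?_⟩
  set p : V → ℂ := fun x => w x / (1 + w x) with hpdef
  -- θ
  obtain ⟨x0, -, hx0⟩ := Finset.exists_max_image (Finset.univ : Finset V)
    (fun x => (‖p x - p0 x‖ + ‖p x‖ * ((1 + c) ^ G.degree x - 1)) / c) Finset.univ_nonempty
  set θ : ℝ := (‖p x0 - p0 x0‖ + ‖p x0‖ * ((1 + c) ^ G.degree x0 - 1)) / c with hθdef
  have hθ1 : θ < 1 := by
    rw [hθdef, div_lt_one hc]
    exact hp x0
  have hθ0 : 0 ≤ θ := by
    rw [hθdef]
    have h3 : (1 : ℝ) ≤ (1 + c) ^ G.degree x0 := one_le_pow₀ (by linarith)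
    have h4 : 0 ≤ ‖p x0‖ * ((1 + c) ^ G.degree x0 - 1) :=
      mul_nonneg (norm_nonneg _) (by linarith)
    have h5 := norm_nonneg (p x0 - p0 x0)
    apply div_nonneg _ hc.le
    linarith
  set n : ℝ := (Fintype.card V : ℝ) with hn
  have hn1 : 1 ≤ n := by
    have : 0 < Fintype.card V := Fintype.card_pos
    rw [hn]
    exact_mod_cast this
  have hnpos : 0 < n := by linarith
  set r : ℝ := (n - (1 - θ)) / n with hr
  have hr0 : 0 ≤ r := div_nonneg (by linarith) hnpos.le
  have hr1 : r < 1 := by
    rw [hr, div_lt_one hnpos]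
    linarith
  -- every eigenvalue has norm at most r
  have key : ∀ k ∈ spectrum ℂ (inducedMap (glauber G w) (glauber_one G w hw)), ‖k‖ ≤ r := by
    intro k hk
    rw [← Module.End.hasEigenvalue_iff_mem_spectrum] at hk
    obtain ⟨v, hv⟩ := hk.exists_hasEigenvector
    obtain ⟨f, rfl⟩ := Submodule.Quotient.mk_surjective _ v
    have hv1 := hv.apply_eq_smul
    have hv2 : (Submodule.Quotient.mk ((glauber G w).mulVec f) : (Omega G → ℂ) ⧸ constants _) =
        Submodule.Quotient.mk (k • f) := hv1
    rw [Submodule.Quotient.eq, constants, Submodule.mem_span_singleton] at hv2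
    obtain ⟨a, ha⟩ := hv2
    have hv3 : f ∉ constants (Omega G) := by
      intro h
      exact hv.2 ((Submodule.Quotient.mk_eq_zero _).2 h)
    set F := ext0 G f with hF
    have hn' : (Fintype.card V : ℂ) ≠ 0 := by
      exact_mod_cast Fintype.card_ne_zero
    -- the pointwise equation
    have hpt : ∀ J, Ind G J → ∑ x : V, U G p x F J =
        (Fintype.card V : ℂ) * (k * F J) + (Fintype.card V : ℂ) * a := by
      intro J hJ
      have h3 := congrFun ha ⟨J, hJ⟩
      simp only [Pi.smul_apply, Pi.sub_apply, smul_eq_mul, mul_one] at h3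
      rw [glauber_mulVec G w hw, ← ext0_coe G f ⟨J, hJ⟩] at h3
      have h4 : (1 / (Fintype.card V : ℂ)) * ∑ x : V, U G p x F J = k * F J + a := by
        rw [h3]
        ring
      field_simp at h4
      rw [h4]
      ring
    have hM : ∀ S : Finset V, S.Nonempty →
        n * ‖k‖ * M G S F ≤ M G S (fun I => ∑ x : V, U G p x F I) := by
      intro S hS
      have h5 : M G S F * (n * ‖k‖) ≤ M G S (fun I => ∑ x : V, U G p x F I) := by
        rcases eq_or_lt_of_le (mul_nonneg hnpos.le (norm_nonneg k) : 0 ≤ n * ‖k‖) with h0 | hpos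
        · rw [← h0, mul_zero]
          exact M_nonneg _ _ _
        · rw [← le_div_iff₀ hpos]
          apply M_le (div_nonneg (M_nonneg _ _ _) hpos.le)
          intro I hI
          rw [le_div_iff₀ hpos]
          have h6 := le_M hI (fun I => ∑ x : V, U G p x F I)
          rw [D_congr hI hpt, D_add S (fun J => (Fintype.card V : ℂ) * (k * F J)), D_const hS,
            add_zero, D_smul, D_smul, norm_mul, norm_mul, Complex.norm_natCast] at h6
          calc _ = (Fintype.card V : ℝ) * (‖k‖ * ‖D S F I‖) := by ring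
            _ ≤ _ := h6
      calc _ = M G S F * (n * ‖k‖) := by ring
        _ ≤ _ := h5
    have hN : n * ‖k‖ * N G c F ≤ (n - (1 - θ)) * N G c F := by
      refine le_trans ?_ (N_sum_le G p p0 h0 h1 hc hθ1.le (fun x => hx0 x (Finset.mem_univ _)) F)
      unfold N
      rw [Finset.mul_sum]
      refine Finset.sum_le_sum fun S hS => ?_
      have := hM S (Finset.nonempty_iff_ne_empty.2 (Finset.mem_erase.1 hS).1)
      calc _ = c ^ S.card * (n * ‖k‖ * M G S F) := by ring
        _ ≤ _ := mul_le_mul_of_nonneg_left this (pow_nonneg hc.le _)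
    have hNpos : 0 < N G c F := by
      by_contra hcon
      have hN0 : N G c F = 0 := le_antisymm (not_lt.1 hcon)
        (Finset.sum_nonneg fun S _ => mul_nonneg (pow_nonneg hc.le _) (M_nonneg _ _ _))
      unfold N at hN0
      rw [Finset.sum_eq_zero_iff_of_nonneg
        (fun S _ => mul_nonneg (pow_nonneg hc.le _) (M_nonneg _ _ _))] at hN0
      have h7 : ∀ x : V, M G {x} F = 0 := by
        intro x
        have := hN0 {x} (Finset.mem_erase.2 ⟨Finset.singleton_ne_empty x, Finset.mem_univ _⟩)
        rcases mul_eq_zero.1 this with h | h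
        · exact absurd h (pow_pos hc _).ne'
        · exact h
      have h8 : ∀ I : Finset V, Ind G I → F I = F ∅ := by
        intro I
        induction I using Finset.induction_on with
        | empty => intro _; rfl
        | insert x I hx ih =>
          intro hI
          have hI' : Ind G I := fun a ha b hb =>
            hI a (Finset.mem_insert_of_mem ha) b (Finset.mem_insert_of_mem hb)
          have hadm : Adm G {x} I := by
            refine ⟨Finset.disjoint_singleton_right.2 hx, ?_⟩
            have e : I ∪ {x} = insert x I := by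
              ext y
              simp only [Finset.mem_union, Finset.mem_singleton, Finset.mem_insert]
              tauto
            rw [e]
            exact hI
          have h9 := le_M hadm F
          rw [h7 x] at h9
          have h10 : D {x} F I = F (insert x I) - F I := by
            have := D_insert (Finset.notMem_empty x) F I
            simpa [D] using this
          rw [h10] at h9
          have h11 := sub_eq_zero.1 (norm_le_zero_iff.1 h9)
          rw [h11]
          exact ih hI'
      apply hv3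
      rw [constants, Submodule.mem_span_singleton]
      refine ⟨F ∅, ?_⟩
      funext J
      have := h8 J.1 J.2
      rw [hF, ext0_coe] at this
      simp only [Pi.smul_apply, smul_eq_mul, mul_one]
      exact this.symm
    have h12 : n * ‖k‖ ≤ n - (1 - θ) := le_of_mul_le_mul_right hN hNpos
    rw [hr, le_div_iff₀ hnpos]
    linarith
  -- conclude
  have hle : spectralRadius ℂ (inducedMap (glauber G w) (glauber_one G w hw)) ≤
      (Real.toNNReal r : ENNReal) := by
    unfold spectralRadius
    refine iSup₂_le fun k hk => ?_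
    have h13 := key k hk
    rw [ENNReal.coe_le_coe, ← NNReal.coe_le_coe, Real.coe_toNNReal r hr0, coe_nnnorm]
    exact h13
  refine lt_of_le_of_lt hle ?_
  rw [← ENNReal.coe_one, ENNReal.coe_lt_coe, ← NNReal.coe_lt_coe, Real.coe_toNNReal r hr0]
  exact_mod_cast hr1

end H11Glauber
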